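import Mathlib

namespace Pool.SIF83

/-- The arithmetic end of the linear range. -/
theorem end_linear (w k D h d κ inc F T : ℤ)
    (hw : 0 ≤ w) (hwk : w ≤ k - 3) (hD : 5 * (k - 2) ≤ D)
    (hh : 0 ≤ h) (hd : 0 ≤ d) (hκ : 0 ≤ κ) (hκd : κ + d ≤ w) (hinc : 0 ≤ inc) (hF : 0 ≤ F)
    (hFD : F ≤ D - 1)
    (h0 : T < 0 → D * h < w * (k - 2))
    (hF0 : d = 0 → F = 0)
    (hA : w - κ + w * d - w * h + (D - 1 - κ) * h - d * F ≤ T)
    (hC : w + w * d - 2 * κ - (w - inc) * h + F ≤ T)
    (hB : w - κ + w * d - w * h + (w + 1 - d - inc) * F - (w - d) * (k - 1) ≤ T) :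
    0 ≤ T := by
  by_contra hT
  push Not at hT
  have h0' := h0 hT
  have hk2 : 0 < k - 2 := by linarith
  have h5h : 5 * h < w := by
    by_contra hc
    push Not at hc
    have h1 : w * (k - 2) ≤ 5 * h * (k - 2) := mul_le_mul_of_nonneg_right hc hk2.le
    have h2 : 5 * (k - 2) * h ≤ D * h := mul_le_mul_of_nonneg_right hD hh
    have h3 : 5 * h * (k - 2) = 5 * (k - 2) * h := by ring
    linarith
  have hDw : 5 * w + 5 ≤ D := by linarith
  -- d = 0
  rcases eq_or_lt_of_le hd with hd0 | hdpos
  · have hF' := hF0 hd0.symm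
    subst hF'
    rw [← hd0] at hA hκd
    have h1 : κ * h ≤ w * h := mul_le_mul_of_nonneg_right (by linarith) hh
    have h2 : (2 * w + 1) * h ≤ D * h := mul_le_mul_of_nonneg_right (by linarith) hh
    have e1 : w - κ + w * 0 - w * h + (D - 1 - κ) * h - 0 * 0
        = w - κ - w * h + D * h - h - κ * h := by ring
    have e2 : (2 * w + 1) * h = 2 * (w * h) + h := by ring
    linarith
  have hd1 : 1 ≤ d := hdpos
  -- κ bounds
  have hκh : κ * h ≤ (w - d) * h := mul_le_mul_of_nonneg_right (by linarith) hh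
  have hinch : 0 ≤ inc * h := mul_nonneg hinc hh
  -- (C) weak
  have hC' : w * d - w + 2 * d - w * h + inc * h + F ≤ T := by
    have e1 : (w - inc) * h = w * h - inc * h := by ring
    linarith
  have hA' : d + w * d + (D - 1 - 2 * w + d) * h - d * F ≤ T := by
    have e1 : (D - 1 - κ) * h = D * h - h - κ * h := by ring
    have e2 : (D - 1 - 2 * w + d) * h = D * h - h - w * h - (w - d) * h := by ring
    linarith
  -- h < d impossible
  have hdh : d ≤ h := by
    by_contra hc
    push Not at hc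
    have h1 : w * (h + 1) ≤ w * d := mul_le_mul_of_nonneg_left (by linarith) hw
    have e1 : w * (h + 1) = w * h + w := by ring
    linarith
  have hcoef : 0 ≤ D - 1 - 2 * w + d := by linarith
  have hFbig : D - w + d + 1 ≤ F := by
    have h1 : (D - 1 - 2 * w + d) * d ≤ (D - 1 - 2 * w + d) * h :=
      mul_le_mul_of_nonneg_left hdh hcoef
    by_contra hc
    push Not at hc
    have h2 : F ≤ D - w + d := by linarith
    have h3 : d * F ≤ d * (D - w + d) := mul_le_mul_of_nonneg_left h2 hd
    have e1 : d * (D - w + d) = d + w * d + (D - 1 - 2 * w + d) * d := by ring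
    linarith
  -- h ≠ d
  have hdh1 : d + 1 ≤ h := by
    rcases eq_or_lt_of_le hdh with he | hl
    · exfalso
      rw [← he] at hC' hinch
      linarith
    · linarith
  -- bound for h - d
  have hhd : (h - d) * (D - 1 - 2 * w + d) ≤ d * w := by
    have h3 : d * F ≤ d * (D - 1) := mul_le_mul_of_nonneg_left hFD hd
    have e1 : (h - d) * (D - 1 - 2 * w + d)
        = (D - 1 - 2 * w + d) * h - (d * (D - 1) - 2 * (d * w) + d * d) := by ring
    have e2 : w * d = d * w := by ring
    have e3 : 0 ≤ d * d := mul_nonneg hd hd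
    linarith
  -- inc
  have hinc1 : inc * h ≤ w * (h - d) := by
    have e1 : w * (h - d) = w * h - w * d := by ring
    linarith
  have hinc2 : inc * (D - 1 - 2 * w) ≤ w * w := by
    have h1 : 0 ≤ D - 1 - 2 * w := by linarith
    have h2 : inc * h * (D - 1 - 2 * w) ≤ w * (h - d) * (D - 1 - 2 * w) :=
      mul_le_mul_of_nonneg_right hinc1 h1
    have h3 : (h - d) * (D - 1 - 2 * w) ≤ (h - d) * (D - 1 - 2 * w + d) :=
      mul_le_mul_of_nonneg_left (by linarith) (by linarith)
    have h4 : w * ((h - d) * (D - 1 - 2 * w)) ≤ w * (d * w) :=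
      mul_le_mul_of_nonneg_left (by linarith) hw
    have h5 : w * (d * w) ≤ w * (h * w) :=
      mul_le_mul_of_nonneg_left (mul_le_mul_of_nonneg_right hdh hw) hw
    have e1 : inc * (D - 1 - 2 * w) * h = inc * h * (D - 1 - 2 * w) := by ring
    have e2 : w * w * h = w * (h * w) := by ring
    have e3 : w * (h - d) * (D - 1 - 2 * w) = w * ((h - d) * (D - 1 - 2 * w)) := by ring
    have h6 : inc * (D - 1 - 2 * w) * h ≤ w * w * h := by linarith
    exact le_of_mul_le_mul_right h6 (by linarith)
  have hinc3 : 3 * inc ≤ w := by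
    by_contra hc
    push Not at hc
    have h1 : inc * (3 * w + 4) ≤ inc * (D - 1 - 2 * w) :=
      mul_le_mul_of_nonneg_left (by linarith) hinc
    have h2 : (w + 1) * w ≤ 3 * inc * w := mul_le_mul_of_nonneg_right (by linarith) hw
    have e1 : inc * (3 * w + 4) = 3 * inc * w + 4 * inc := by ring
    have e2 : (w + 1) * w = w * w + w := by ring
    linarith
  -- (B)
  have hL : (7 * w + 15) ≤ 15 * (w + 1 - d - inc) := by linarith
  have hFk : 4 * (k - 2) + 3 ≤ F := by linarith
  have hBl : (7 * w + 15) * (4 * (k - 2) + 3) ≤ 15 * (w + 1 - d - inc) * F :=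
    mul_le_mul hL hFk (by linarith) (by linarith)
  have hwd : (w - d) * (k - 1) ≤ w * (k - 1) :=
    mul_le_mul_of_nonneg_right (by linarith) (by linarith)
  have hwh : 5 * (w * (h - d)) ≤ w * w := by
    have h1 : w * (5 * (h - d)) ≤ w * w := mul_le_mul_of_nonneg_left (by linarith) hw
    have e1 : w * (5 * (h - d)) = 5 * (w * (h - d)) := by ring
    linarith
  have hww : w * w ≤ w * (k - 3) := mul_le_mul_of_nonneg_left hwk hw
  have hwk0 : 0 ≤ w * (k - 2) := mul_nonneg hw hk2.le
  have e1 : (7 * w + 15) * (4 * (k - 2) + 3) = 28 * (w * (k - 2)) + 21 * w + 60 * (k - 2) + 45 := by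
    ring
  have e2 : 15 * (w + 1 - d - inc) * F = 15 * ((w + 1 - d - inc) * F) := by ring
  have e3 : w * (k - 1) = w * (k - 2) + w := by ring
  have e4 : w * (k - 3) = w * (k - 2) - w := by ring
  have e5 : w * (h - d) = w * h - w * d := by ring
  linarith

end Pool.SIF83
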